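import Mathlib

open Finset

namespace Pool.Agent.Results.MP_ca77af_co.TreeUpColor

/-- `D` is an up-color dominating `c`-set of `G`: every vertex outside `D` has a neighbour
in `D` with a strictly larger colour, and no vertex of `D` has colour `0`. -/
def IsUpColorDominating {V : Type*} (G : SimpleGraph V) (c : V → ℕ) (D : Finset V) : Prop :=
  (∀ v, v ∉ D → ∃ d ∈ D, G.Adj v d ∧ c v < c d) ∧ ∀ d ∈ D, c d ≠ 0

/-- `ω_uc(G, c)`, the minimum weight of an up-color dominating `c`-set
(`⊤` if there is no such set). -/
noncomputable def omegaUC {V : Type*} (G : SimpleGraph V) (c : G.Coloring ℕ) : ℕ∞ :=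
  ⨅ D : {D : Finset V // IsUpColorDominating G c D}, ((∑ d ∈ D.1, c d : ℕ) : ℕ∞)

/-- `Ω_uc(G)`, the up-color domination weight: the minimum of `ω_uc(G, c)` over all proper
colourings `c : V → {0, 1, 2, ...}` of `G`. -/
noncomputable def OmegaUC {V : Type*} (G : SimpleGraph V) : ℕ∞ :=
  ⨅ c : G.Coloring ℕ, omegaUC G c

/-- `f` is a Roman dominating function of `G`. -/
def IsRomanDominating {V : Type*} (G : SimpleGraph V) (f : V → ℕ) : Prop :=
  (∀ v, f v ≤ 2) ∧ ∀ u, f u = 0 → ∃ v, G.Adj u v ∧ f v = 2

/-- The Roman domination number `γ_r(G)`. -/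
noncomputable def romanNumber {V : Type*} [Fintype V] (G : SimpleGraph V) : ℕ :=
  sInf {w : ℕ | ∃ f : V → ℕ, IsRomanDominating G f ∧ ∑ v, f v = w}

lemma exists_roman {V : Type*} [Fintype V] (G : SimpleGraph V) :
    ∃ f : V → ℕ, IsRomanDominating G f ∧ ∑ v, f v = romanNumber G := by
  have hne : {w : ℕ | ∃ f : V → ℕ, IsRomanDominating G f ∧ ∑ v, f v = w}.Nonempty :=
    ⟨_, fun _ => 1, ⟨fun _ => by norm_num, fun _ h => absurd h (by norm_num)⟩, rfl⟩
  exact Nat.sInf_mem hne

/-- The construction: from a bipartition `side` and a Roman dominating function. -/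
lemma core {V : Type*} [Fintype V] [DecidableEq V] (G : SimpleGraph V) (side : V → Bool)
    (hside : ∀ u v, G.Adj u v → side u ≠ side v) (f : V → ℕ) (hf : IsRomanDominating G f)
    (hiso : ∀ v, side v = false → f v = 1 → ∃ w, G.Adj v w) :
    OmegaUC G + ((univ.filter (fun v => f v = 2 ∧ side v = true)).card : ℕ∞)
      ≤ ((∑ v, f v : ℕ) : ℕ∞) := by
  classical
  -- the colouring
  let c : V → ℕ := fun v => if side v then 1 else if f v = 2 then 2 else 0
  have hc : ∀ {u v}, G.Adj u v → c u ≠ c v := by
    intro u v huv
    have h1 := hside u v huv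
    simp only [c]
    cases hu : side u <;> cases hv : side v
    · exact absurd (hu.trans hv.symm) h1
    · by_cases h2 : f u = 2 <;> simp [h2]
    · by_cases h2 : f v = 2 <;> simp [h2]
    · exact absurd (hu.trans hv.symm) h1
  let C : G.Coloring ℕ := SimpleGraph.Coloring.mk c hc
  -- a neighbour of each vertex of `V₁ ∩ A`
  have hw : ∀ v, ∃ w, side v = false → f v = 1 → G.Adj v w := by
    intro v
    by_cases h : side v = false ∧ f v = 1
    · obtain ⟨w, hw⟩ := hiso v h.1 h.2
      exact ⟨w, fun _ _ => hw⟩
    · exact ⟨v, fun h1 h2 => absurd ⟨h1, h2⟩ h⟩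
  choose w hw using hw
  let D2 : Finset V := univ.filter (fun v => f v = 2)
  let D1 : Finset V := univ.filter (fun v => f v = 1 ∧ side v = true)
  let A1 : Finset V := univ.filter (fun v => f v = 1 ∧ side v = false)
  let W : Finset V := A1.image w
  let D : Finset V := D2 ∪ (D1 ∪ W)
  have hWside : ∀ x ∈ W, side x = true := by
    intro x hx
    simp only [W, A1, mem_image, mem_filter, mem_univ, true_and] at hx
    obtain ⟨v, ⟨hv1, hv2⟩, rfl⟩ := hx
    have := hside _ _ (hw v hv2 hv1)
    cases h : side (w v) <;> simp_all
  have hD : IsUpColorDominating G C D := by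
    constructor
    · intro v hv
      have hv' : v ∉ D2 ∧ v ∉ D1 ∧ v ∉ W := by
        simpa [D, not_or] using hv
      obtain ⟨h2, h1, hW⟩ := hv'
      have hf2 : f v ≠ 2 := by simpa [D2] using h2
      have hle := hf.1 v
      cases hs : side v with
      | true =>
        have hf1 : f v ≠ 1 := by
          intro h; exact h1 (by simp [D1, h, hs])
        have hf0 : f v = 0 := by omega
        obtain ⟨d, hd, hd2⟩ := hf.2 v hf0
        refine ⟨d, by simp [D, D2, hd2], hd, ?_⟩
        have hsd : side d = false := by
          have := hside _ _ hd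
          cases h : side d <;> simp_all
        change c v < c d
        simp [c, hs, hsd, hd2]
      | false =>
        by_cases hf1 : f v = 1
        · refine ⟨w v, ?_, hw v hs hf1, ?_⟩
          · have : w v ∈ W := mem_image_of_mem _ (by simp [A1, hf1, hs])
            simp [D, this]
          · have : side (w v) = true := hWside _ (mem_image_of_mem _ (by simp [A1, hf1, hs]))
            change c v < c (w v)
            simp [c, hs, this, hf2]
        · have hf0 : f v = 0 := by omega
          obtain ⟨d, hd, hd2⟩ := hf.2 v hf0
          refine ⟨d, by simp [D, D2, hd2], hd, ?_⟩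
          have hsd : side d = true := by
            have := hside _ _ hd
            cases h : side d <;> simp_all
          change c v < c d
          simp [c, hs, hsd, hf2]
    · intro d hd
      change c d ≠ 0
      have hd' : d ∈ D2 ∨ d ∈ D1 ∨ d ∈ W := by simpa [D] using hd
      rcases hd' with h | h | h
      · have : f d = 2 := by simpa [D2] using h
        simp only [c]
        split_ifs <;> omega
      · have : side d = true := by
          have := (mem_filter.mp h).2
          exact this.2
        simp [c, this]
      · simp [c, hWside d h]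
  -- the weight
  have hweight : ∑ d ∈ D, c d + (univ.filter (fun v => f v = 2 ∧ side v = true)).card
      ≤ ∑ v, f v := by
    have e1 : ∑ d ∈ D, c d ≤ ∑ d ∈ D2, c d + (∑ d ∈ D1, c d + ∑ d ∈ W, c d) := by
      calc ∑ d ∈ D, c d ≤ ∑ d ∈ D2, c d + ∑ d ∈ D1 ∪ W, c d := by
            have := Finset.sum_union_inter (s₁ := D2) (s₂ := D1 ∪ W) (f := c)
            simp only [D]; omega
        _ ≤ _ := by
            have := Finset.sum_union_inter (s₁ := D1) (s₂ := W) (f := c)
            omega
    have e2 : ∑ d ∈ W, c d ≤ A1.card := by
      calc ∑ d ∈ W, c d = ∑ d ∈ W, 1 := sum_congr rfl (fun d hd => by simp [c, hWside d hd])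
        _ = W.card := by simp
        _ ≤ A1.card := card_image_le
    have e3 : ∑ d ∈ D1, c d = D1.card := by
      calc ∑ d ∈ D1, c d = ∑ d ∈ D1, 1 := sum_congr rfl (fun d hd => by
              have := (mem_filter.mp hd).2.2
              simp [c, this])
        _ = D1.card := by simp
    have e4 : ∑ d ∈ D2, c d + (univ.filter (fun v => f v = 2 ∧ side v = true)).card
        ≤ ∑ d ∈ D2, 2 := by
      have : (univ.filter (fun v => f v = 2 ∧ side v = true)).card
          = ∑ d ∈ D2, (if side d = true then 1 else 0) := by
        rw [card_filter, sum_filter]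
        refine sum_congr rfl (fun x _ => ?_)
        by_cases h1 : f x = 2 <;> by_cases h2 : side x = true <;> simp [h1, h2]
      rw [this, ← sum_add_distrib]
      refine sum_le_sum (fun d hd => ?_)
      have : f d = 2 := by simpa [D2] using hd
      simp only [c]
      split_ifs <;> omega
    have e5 : ∑ v, f v = ∑ d ∈ D2, 2 + (D1.card + A1.card) := by
      have h1 : ∑ d ∈ D2, 2 = ∑ v, (if f v = 2 then 2 else 0) := by
        simp only [D2, sum_filter]
      have h2 : D1.card = ∑ v, (if f v = 1 ∧ side v = true then 1 else 0) := by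
        simp only [D1, card_filter]
      have h3 : A1.card = ∑ v, (if f v = 1 ∧ side v = false then 1 else 0) := by
        simp only [A1, card_filter]
      rw [h1, h2, h3, ← sum_add_distrib, ← sum_add_distrib]
      refine sum_congr rfl (fun v _ => ?_)
      have := hf.1 v
      have h012 : f v = 0 ∨ f v = 1 ∨ f v = 2 := by omega
      rcases h012 with h | h | h <;> cases hs : side v <;> simp [h]
    omega
  have hle : OmegaUC G ≤ ((∑ d ∈ D, c d : ℕ) : ℕ∞) := by
    refine (iInf_le _ C).trans ?_
    exact (iInf_le (fun D : {D : Finset V // IsUpColorDominating G C D} =>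
      ((∑ d ∈ D.1, C d : ℕ) : ℕ∞)) ⟨D, hD⟩)
  calc OmegaUC G + ((univ.filter (fun v => f v = 2 ∧ side v = true)).card : ℕ∞)
      ≤ ((∑ d ∈ D, c d : ℕ) : ℕ∞)
        + ((univ.filter (fun v => f v = 2 ∧ side v = true)).card : ℕ∞) := by gcongr
    _ ≤ _ := by exact_mod_cast hweight

/-- Every finite tree `T` satisfies `Ω_uc(T) ≤ γ_r(T)`, and if `T` has at least two vertices
then even `Ω_uc(T) + 1 ≤ γ_r(T)`. -/
theorem result {V : Type*} [Fintype V] (T : SimpleGraph V) (hT : T.IsTree) :
    OmegaUC T ≤ (romanNumber T : ℕ∞) ∧
      (2 ≤ Fintype.card V → OmegaUC T + 1 ≤ (romanNumber T : ℕ∞)) := by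
  classical
  have key : 2 ≤ Fintype.card V → OmegaUC T + 1 ≤ (romanNumber T : ℕ∞) := by
    intro hcard
    have hnt : Nontrivial V := Fintype.one_lt_card_iff_nontrivial.mp (by omega)
    have hadj : ∀ v, ∃ w, T.Adj v w := fun v =>
      hT.connected.preconnected.exists_adj_of_nontrivial v
    obtain ⟨f, hf, hfs⟩ := exists_roman T
    -- we may assume that the value 2 occurs
    obtain ⟨g, hg, hgs, v₀, hv₀⟩ : ∃ g : V → ℕ, IsRomanDominating T g ∧
        ∑ v, g v = romanNumber T ∧ ∃ v, g v = 2 := by
      by_cases h2 : ∃ v, f v = 2
      · exact ⟨f, hf, hfs, h2⟩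
      · push Not at h2
        have h1 : ∀ v, f v = 1 := by
          intro v
          have := hf.1 v
          have h0 : f v ≠ 0 := by
            intro h0
            obtain ⟨w, _, hw⟩ := hf.2 v h0
            exact h2 w hw
          have := h2 v
          omega
        obtain ⟨u⟩ : Nonempty V := inferInstance
        obtain ⟨v, huv⟩ := hadj u
        have hne : u ≠ v := huv.ne
        refine ⟨Function.update (Function.update f u 2) v 0, ?_, ?_, u, ?_⟩
        · constructor
          · intro x
            by_cases hx : x = v
            · subst hx; simp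
            · by_cases hxu : x = u
              · subst hxu; simp [hx]
              · simp [hx, hxu, h1 x]
          · intro x hx
            by_cases hxv : x = v
            · subst hxv
              exact ⟨u, huv.symm, by simp [hne]⟩
            · exfalso
              by_cases hxu : x = u
              · subst hxu; simp [hxv] at hx
              · simp [hxv, hxu, h1 x] at hx
        · rw [← hfs]
          rw [Finset.sum_update_of_mem (mem_univ v)]
          have hu : u ∈ univ \ {v} := by simp [hne]
          rw [Finset.sum_update_of_mem hu]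
          rw [← Finset.add_sum_erase univ f (mem_univ v)]
          rw [← Finset.add_sum_erase (univ.erase v) f (a := u) (by simp [hne])]
          rw [h1 u, h1 v]
          have : (univ \ {v}) \ {u} = (univ.erase v).erase u := by
            ext x; simp [and_comm]
          rw [this]
          ring
        · simp [hne]
    obtain ⟨col⟩ := hT.colorable_two
    let side : V → Bool := fun v => decide (col v = col v₀)
    have hside : ∀ u v, T.Adj u v → side u ≠ side v := by
      intro u v huv
      have := col.valid huv
      simp only [side, ne_eq]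
      intro h
      have h' := decide_eq_decide.mp h
      have a := (col u).2
      have b := (col v).2
      have c := (col v₀).2
      have hab : (col u).1 ≠ (col v).1 := fun hh => this (Fin.ext hh)
      rw [Fin.ext_iff, Fin.ext_iff] at h'
      omega
    have hcore := core T side hside g hg (fun v _ _ => hadj v)
    have hpos : (1 : ℕ∞) ≤ ((univ.filter (fun v => g v = 2 ∧ side v = true)).card : ℕ∞) := by
      have : 0 < (univ.filter (fun v => g v = 2 ∧ side v = true)).card :=
        card_pos.mpr ⟨v₀, by simp [hv₀, side]⟩
      exact_mod_cast this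
    calc OmegaUC T + 1 ≤ OmegaUC T
          + ((univ.filter (fun v => g v = 2 ∧ side v = true)).card : ℕ∞) := by gcongr
      _ ≤ ((∑ v, g v : ℕ) : ℕ∞) := hcore
      _ = (romanNumber T : ℕ∞) := by rw [hgs]
  refine ⟨?_, key⟩
  by_cases hcard : 2 ≤ Fintype.card V
  · exact le_trans le_self_add (key hcard)
  · -- at most one vertex
    have hsub : Subsingleton V := Fintype.card_le_one_iff_subsingleton.mp (by omega)
    obtain ⟨f, hf, hfs⟩ := exists_roman T
    have hcore := core T (fun _ => true) (fun u v huv => absurd (Subsingleton.elim u v) huv.ne)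
      f hf (fun v hv => absurd hv (by simp))
    rw [hfs] at hcore
    exact le_trans le_self_add hcore

end Pool.Agent.Results.MP_ca77af_co.TreeUpColor
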